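import Pool.Agent.H.MP_b39683_an.A

set_option autoImplicit false
open MeasureTheory
open scoped ComplexOrder

namespace Pool.Agent.Results.MP_b39683_an.No

variable {G : Type} [Group G] [MeasurableSpace G] (μ : Measure G)

/-- There is a left invariant mean on `L^∞(G)`. -/
def Amenable : Prop := ∃ m : Lp ℝ ⊤ μ → ℝ, IsLinearMap ℝ m ∧
  (∀ f : Lp ℝ ⊤ μ, (∀ᵐ s ∂μ, 0 ≤ f s) → 0 ≤ m f) ∧
  (∀ f : Lp ℝ ⊤ μ, (∀ᵐ s ∂μ, f s = 1) → m f = 1) ∧
  ∀ (t : G) (f k : Lp ℝ ⊤ μ), (∀ᵐ s ∂μ, k s = f (t⁻¹ * s)) → m k = m f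

/-- Bounded linear operator on `L^2(G)`. -/
def Bounded (T : Lp ℂ 2 μ → Lp ℂ 2 μ) : Prop := IsBoundedLinearMap ℂ T

/-- `T` commutes with all right translations. -/
def CommutesRight (T : Lp ℂ 2 μ → Lp ℂ 2 μ) : Prop :=
  ∀ (t : G) (f k : Lp ℂ 2 μ), (∀ᵐ s ∂μ, k s = f (s * t)) → ∀ᵐ s ∂μ, T k s = T f (s * t)

/-- Positive operator. -/
def Positive (S : Lp ℂ 2 μ → Lp ℂ 2 μ) : Prop :=
  Bounded μ S ∧ ∀ f : Lp ℂ 2 μ, (∀ᵐ s ∂μ, 0 ≤ f s) → ∀ᵐ s ∂μ, 0 ≤ S f s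

/-- `T` is a complex linear combination of positive operators. -/
def Regular (T : Lp ℂ 2 μ → Lp ℂ 2 μ) : Prop :=
  ∃ (n : ℕ) (c : Fin n → ℂ) (S : Fin n → Lp ℂ 2 μ → Lp ℂ 2 μ), (∀ i, Positive μ (S i)) ∧
    ∀ f, ∀ᵐ s ∂μ, T f s = ∑ i, c i * S i f s

open Pool.Agent.H.MP_b39683_an in
theorem result : ∃ (G : Type) (_ : Group G) (_ : TopologicalSpace G) (_ : IsTopologicalGroup G)
    (_ : LocallyCompactSpace G) (_ : T2Space G) (_ : MeasurableSpace G) (_ : BorelSpace G)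
    (μ : Measure G), μ.IsHaarMeasure ∧ μ.Regular ∧ ¬ Amenable μ ∧
      ∃ T : Lp ℂ 2 μ → Lp ℂ 2 μ, Bounded μ T ∧ CommutesRight μ T ∧ ¬ Regular μ T := by
  refine ⟨G, inferInstance, inferInstance, inferInstance, inferInstance, inferInstance,
    inferInstance, inferInstance, .count, inferInstance, ?_, fun ⟨m, h, _, a, b⟩ => nam (h.mk' m) a b, T,
    T.isBoundedLinearMap, fun t f k h => .of_forall fun s => ?_, fun ⟨n, c, S, h, e⟩ => nreg ?_⟩
  · refine { outerRegular := fun A _ r h => ⟨A, subset_rfl, isOpen_discrete _, h⟩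
             innerRegular := fun U _ r h => ?_ }
    by_cases e : U.Finite
    · exact ⟨U, subset_rfl, e.isCompact, h⟩
    · obtain ⟨n, hn⟩ := ENNReal.exists_nat_gt h.ne_top
      obtain ⟨K, a, b⟩ := Set.Infinite.exists_subset_card_eq e n
      exact ⟨K, a, K.finite_toSet.isCompact, by simpa [b] using hn⟩
  · rw [show k = Rr t f from ext fun x => by rw [Measure.ae_count_iff.1 h, Rr, cp_ap],
      ← ContinuousLinearMap.mul_apply, T_comm t]
    simp [Rr, cp_ap]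
  · rw [show T = ∑ i, c i • (h i).1.toContinuousLinearMap from ContinuousLinearMap.ext fun f =>
      ext fun x => by
        rw [Measure.ae_count_iff.1 (e f), ← ev_ap x ((∑ _, _ : _ →L[ℂ] _) f)]
        simp only [ContinuousLinearMap.sum_apply, ContinuousLinearMap.smul_apply, map_sum, map_smul,
          ev_ap]
        rfl]
    exact Submodule.sum_mem _ fun i _ => Submodule.smul_mem _ _ (Submodule.subset_span (h i).2)

end Pool.Agent.Results.MP_b39683_an.No
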